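import Pool.Agent.Work.MP_4905b1_co.Final2

/-!
# Fermionic formulas for bounded modified Hall-Littlewood sums

`X` stands for `q^{1/2}`.  The definitions (partitions, Hall-Littlewood functions by the
symmetrisation formula, power sum expansions, formal sums, the series `S`, `F_{k,N}`, `G_{k,N}`)
are in `Pool.Agent.Work.MP_4905b1_co.Statement`.

For all `N ≥ 1` (in particular for `N = 2n - 1`) and all `m ≥ 1` the sum
`∑_{λ_1 ≤ m} q^{|λ|/2} P'_λ(1^N;q) ∏_{i<m} (-q^{1/2};q^{1/2})_{m_i(λ)}` equals `F_{k,N}` if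
`m = 2k + 1` and `G_{k,N}` if `m = 2k`.
-/

namespace Pool.Agent.Results.MP_4905b1_co.FermionicFormulas

open MP4905 MP4905.St

theorem result :
    (∃ F : Ptn → MvPolynomial ℕ+ (PowerSeries ℚ),
      ExpressesHL ((PowerSeries.X : PowerSeries ℚ) ^ 2) F) ∧
    ∀ F : Ptn → MvPolynomial ℕ+ (PowerSeries ℚ),
      ExpressesHL ((PowerSeries.X : PowerSeries ℚ) ^ 2) F → ∀ (N : ℕ) [NeZero N],
        (∀ m : ℕ, FSummable (Sterm F m N)) ∧
        (∀ k : ℕ, FSummable (fun r : Fin N → Fin k → ℕ => Fterm r) ∧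
          S F (2 * k + 1) N = Fser k N) ∧
        (∀ (k : ℕ) [NeZero k], FSummable (fun r : Fin N → Fin k → ℕ => Gterm r) ∧
          (∀ r : Fin N → Fin k → ℕ, HahnSeries.ofPowerSeries ℤ ℚ (Gterm r) = GtermL r) ∧
          S F (2 * k) N = Gser k N) := by
  refine ⟨exists_F, fun F hF N hN0 => ?_⟩
  have hN : 0 < N := NeZero.pos N
  refine ⟨fun m => S_summable hF hN, fun k => ⟨F_summable N k, main_odd hF k hN⟩,
    fun k hk0 => ?_⟩
  obtain ⟨N', rfl⟩ : ∃ N', N = N' + 1 := ⟨N - 1, by omega⟩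
  have hk : 0 < k := NeZero.pos k
  obtain ⟨k', rfl⟩ : ∃ k', k = k' + 1 := ⟨k - 1, by omega⟩
  exact ⟨G_summable N' k', fun r => Gterm_laurent r, main_even hF k' N'⟩

end Pool.Agent.Results.MP_4905b1_co.FermionicFormulas
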